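import Pool.Agent.Helper904_QSG.StmtsM

/-!
# HM1, HM2: two-dimensional Hausdorff measure on the surface, from LIP
-/

set_option autoImplicit false

open MeasureTheory Set Metric Filter Topology Bundle
open scoped ContDiff Manifold

namespace Pool.Agent.Helper904_QSG.PHM

open Pool.Agent.Helper904_QS Pool.Agent.Helper904_QSG

theorem haar_E2 {E : Type} [NormedAddCommGroup E] [NormedSpace ℝ E]
    (B : Module.Basis (Fin 2) ℝ E) [MeasurableSpace E] [BorelSpace E] :
    (μH[2] : Measure E).IsAddHaarMeasure := by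
  have : FiniteDimensional ℝ E := Module.Basis.finiteDimensional_of_finite B
  have h2 : ((Module.finrank ℝ E : ℕ) : ℝ) = 2 := by
    rw [Module.finrank_eq_card_basis B]; simp
  have h : (μH[(Module.finrank ℝ E : ℕ)] : Measure E).IsAddHaarMeasure := inferInstance
  rwa [h2] at h

theorem haar_C : (μH[2] : Measure ℂ).IsAddHaarMeasure := by
  have h2 : ((Module.finrank ℝ ℂ : ℕ) : ℝ) = 2 := by simp
  have h : (μH[(Module.finrank ℝ ℂ : ℕ)] : Measure ℂ).IsAddHaarMeasure := inferInstance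
  rwa [h2] at h

/-- `volume ≤ κ μH[2]` on the plane -/
theorem vol_C : ∃ κ : NNReal, ∀ A : Set ℂ, volume A = κ * (μH[2] : Measure ℂ) A := by
  have h := haar_C
  refine ⟨(volume : Measure ℂ).addHaarScalarFactor (μH[2] : Measure ℂ), fun A => ?_⟩
  have := Measure.isAddLeftInvariant_eq_smul (volume : Measure ℂ) (μH[2] : Measure ℂ)
  conv_lhs => rw [this]
  rfl

theorem t_HM1 (hLIP : S_LIP) : S_HM1 := by
  intro E _ _ B M _ _ _ _ _ _ _ _ _
  let _ : MeasurableSpace E := borel E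
  have : BorelSpace E := ⟨rfl⟩
  have : FiniteDimensional ℝ E := Module.Basis.finiteDimensional_of_finite B
  have : ProperSpace E := FiniteDimensional.proper ℝ E
  have hE := haar_E2 B
  apply isCompact_univ.measure_lt_top_of_nhdsWithin
  intro x _
  rw [nhdsWithin_univ]
  set e := chartAt E x with he
  have hx : x ∈ e.source := mem_chart_source E x
  obtain ⟨C, U, hU, hUs, -, hl⟩ := hLIP E B M e (chart_mem_atlas E x) x hx
  refine ⟨U ∩ e ⁻¹' ball (e x) 1,
    inter_mem hU ((e.continuousAt hx).preimage_mem_nhds (ball_mem_nhds _ one_pos)), ?_⟩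
  set U' := U ∩ e ⁻¹' ball (e x) 1 with hU'
  have hlip : LipschitzOnWith C e.symm (e '' U') := by
    rintro _ ⟨y, hy, rfl⟩ _ ⟨y', hy', rfl⟩
    rw [e.left_inv (hUs hy.1), e.left_inv (hUs hy'.1)]
    exact hl y hy.1 y' hy'.1
  have himg : e.symm '' (e '' U') = U' := by
    rw [image_image]
    ext y
    constructor
    · rintro ⟨y', hy', rfl⟩
      simp only
      rwa [e.left_inv (hUs hy'.1)]
    · intro hy
      exact ⟨y, hy, e.left_inv (hUs hy.1)⟩
  calc μH[2] U' = μH[2] (e.symm '' (e '' U')) := by rw [himg]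
    _ ≤ (C : ENNReal) ^ (2 : ℝ) * μH[2] (e '' U') := hlip.hausdorffMeasure_image_le (by norm_num)
    _ ≤ (C : ENNReal) ^ (2 : ℝ) * μH[2] (ball (e x) 1) := by
        gcongr
        rintro _ ⟨y, hy, rfl⟩
        exact hy.2
    _ < ⊤ := by
        apply ENNReal.mul_lt_top
        · exact ENNReal.rpow_lt_top_of_nonneg (by norm_num) ENNReal.coe_ne_top
        · exact measure_ball_lt_top

/-- a `C¹` map with injective derivative is locally antilipschitz -/
theorem local_antilip {E : Type} [NormedAddCommGroup E] [NormedSpace ℝ E] (F : ℂ → E) (z : ℂ) (hF : ContDiffAt ℝ 1 F z)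
    (hinj : Function.Injective (fderiv ℝ F z)) :
    ∃ K : NNReal, ∃ s ∈ 𝓝 z, ∀ a ∈ s, ∀ b ∈ s, edist a b ≤ K * edist (F a) (F b) := by
  have hs : HasStrictFDerivAt F (fderiv ℝ F z) z := hF.hasStrictFDerivAt (by norm_num)
  obtain ⟨K, hK, hKa⟩ := LinearMap.exists_antilipschitzWith (fderiv ℝ F z : ℂ →ₗ[ℝ] E)
    (LinearMap.ker_eq_bot.2 hinj)
  have hc : (0 : NNReal) < (2 * K)⁻¹ := by positivity
  obtain ⟨s, hs1, hs2⟩ := hs.approximates_deriv_on_nhds (c := (2 * K)⁻¹) (Or.inr hc)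
  refine ⟨2 * K, s, hs1, ?_⟩
  intro a ha b hb
  have h1 := hs2 a ha b hb
  have h2 : ‖a - b‖ ≤ K * ‖fderiv ℝ F z (a - b)‖ := by
    have := hKa.le_mul_dist a b
    rw [dist_eq_norm, dist_eq_norm] at this
    simpa [map_sub] using this
  have h3 : ‖fderiv ℝ F z (a - b)‖ ≤ ‖F a - F b‖ + (2 * K)⁻¹ * ‖a - b‖ := by
    calc ‖fderiv ℝ F z (a - b)‖ = ‖(F a - F b) - (F a - F b - fderiv ℝ F z (a - b))‖ := by
          congr 1; abel
      _ ≤ ‖F a - F b‖ + ‖F a - F b - fderiv ℝ F z (a - b)‖ := norm_sub_le _ _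
      _ ≤ ‖F a - F b‖ + (2 * K)⁻¹ * ‖a - b‖ := by
          gcongr
  have hK' : (0 : ℝ) < K := hK
  have h4 : ‖a - b‖ ≤ 2 * K * ‖F a - F b‖ := by
    have h5 : ‖a - b‖ ≤ K * (‖F a - F b‖ + (2 * K)⁻¹ * ‖a - b‖) := h2.trans (by gcongr)
    have h6 : (K : ℝ) * (‖F a - F b‖ + ((2 * K)⁻¹ : NNReal) * ‖a - b‖) =
        K * ‖F a - F b‖ + ‖a - b‖ / 2 := by
      push_cast
      field_simp
    linarith
  rw [edist_dist, edist_dist, dist_eq_norm, dist_eq_norm]
  have : ((2 * K : NNReal) : ENNReal) = ENNReal.ofReal (2 * K) := by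
    rw [← ENNReal.ofReal_coe_nnreal]; simp
  rw [this, ← ENNReal.ofReal_mul (by positivity)]
  exact ENNReal.ofReal_le_ofReal h4

theorem t_HM2 (hLIP : S_LIP) : S_HM2 := by
  intro E _ _ B M _ _ _ _ _ _ _ _ e ψ σ hP
  obtain ⟨κ, hκ⟩ := vol_C
  -- local statement
  have hloc : ∀ z ∈ closedBall (0 : ℂ) (3 / 2), ∃ s ∈ 𝓝 z, ∃ K : NNReal, ∀ A : Set ℂ, A ⊆ s →
      volume A ≤ K * μH[2] (ψ '' A) := by
    intro z hz
    have hz2 : z ∈ ball (0 : ℂ) 2 := by
      simp only [mem_closedBall, mem_ball] at *; linarith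
    have hF : ContDiffAt ℝ 1 (fun z => e (ψ z)) z :=
      (hP.sm.contDiffAt (isOpen_ball.mem_nhds hz2)).of_le (by norm_num)
    obtain ⟨K, s, hs, hK⟩ := local_antilip _ z hF (hP.imm z hz2)
    obtain ⟨C, U, hU, hUs, hl, -⟩ := hLIP E B M e hP.chart (ψ z) (hP.src z hz2)
    have hψ : ContinuousAt ψ z := hP.cont.continuousAt (isOpen_ball.mem_nhds hz2)
    refine ⟨s ∩ ψ ⁻¹' U, inter_mem hs (hψ.preimage_mem_nhds hU), κ * (K * C) ^ 2, ?_⟩
    intro A hA
    rcases A.eq_empty_or_nonempty with rfl | ⟨a₀, ha₀⟩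
    · simp
    classical
    -- the inverse of `ψ` on `ψ '' A`
    have hpt : ∀ a ∈ A, ∀ b ∈ A, edist a b ≤ (K * C : NNReal) * edist (ψ a) (ψ b) := by
      intro a ha b hb
      calc edist a b ≤ K * edist (e (ψ a)) (e (ψ b)) := hK a (hA ha).1 b (hA hb).1
        _ ≤ K * (C * edist (ψ a) (ψ b)) := by
            gcongr; exact hl _ (hA ha).2 _ (hA hb).2
        _ = (K * C : NNReal) * edist (ψ a) (ψ b) := by push_cast; ring
    have hinj : InjOn ψ A := by
      intro a ha b hb hab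
      have := hpt a ha b hb
      rw [hab, edist_self, mul_zero] at this
      exact edist_eq_zero.1 (le_antisymm this zero_le)
    set g : M → ℂ := Function.invFunOn ψ A with hg
    have hgA : ∀ a ∈ A, g (ψ a) = a := by
      intro a ha
      exact hinj.leftInvOn_invFunOn ha
    have hlip : LipschitzOnWith (K * C) g (ψ '' A) := by
      rintro _ ⟨a, ha, rfl⟩ _ ⟨b, hb, rfl⟩
      rw [hgA a ha, hgA b hb]
      exact hpt a ha b hb
    have himg : g '' (ψ '' A) = A := by
      rw [image_image]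
      ext y
      constructor
      · rintro ⟨a, ha, rfl⟩
        simp only
        rwa [hgA a ha]
      · intro hy
        exact ⟨y, hy, hgA y hy⟩
    rw [hκ A]
    calc (κ : ENNReal) * μH[2] A = κ * μH[2] (g '' (ψ '' A)) := by rw [himg]
      _ ≤ κ * (((K * C : NNReal) : ENNReal) ^ (2 : ℝ) * μH[2] (ψ '' A)) := by
          gcongr
          exact hlip.hausdorffMeasure_image_le (by norm_num)
      _ = _ := by
          rw [← mul_assoc]
          congr 1
          push_cast
          norm_cast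
  choose! s hs K hK using hloc
  obtain ⟨t, ht1, ht2⟩ := (isCompact_closedBall (0 : ℂ) (3 / 2)).elim_nhds_subcover s hs
  -- the total constant
  have hall : ∀ A : Set ℂ, A ⊆ ball (0 : ℂ) (3 / 2) →
      volume A ≤ ((∑ x ∈ t, K x : NNReal) : ENNReal) * μH[2] (ψ '' A) := by
    intro A hA
    have hcov : A ⊆ ⋃ x ∈ t, A ∩ s x := by
      intro a ha
      have := ht2 (ball_subset_closedBall (hA ha))
      simp only [mem_iUnion] at this ⊢
      obtain ⟨x, hx, hax⟩ := this
      exact ⟨x, hx, ha, hax⟩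
    calc volume A ≤ volume (⋃ x ∈ t, A ∩ s x) := measure_mono hcov
      _ ≤ ∑ x ∈ t, volume (A ∩ s x) := measure_biUnion_finset_le _ _
      _ ≤ ∑ x ∈ t, (K x : ENNReal) * μH[2] (ψ '' A) := by
          apply Finset.sum_le_sum
          intro x hx
          refine (hK x (ht1 x hx) (A ∩ s x) inter_subset_right).trans ?_
          gcongr
          exact inter_subset_left
      _ = ((∑ x ∈ t, K x : NNReal) : ENNReal) * μH[2] (ψ '' A) := by
          rw [← Finset.sum_mul]; push_cast; rfl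
  set S : NNReal := ∑ x ∈ t, K x with hS
  refine ⟨((S : ℝ) + 1)⁻¹, by positivity, ?_⟩
  intro A hA
  have h1 : volume A ≤ ENNReal.ofReal (S + 1) * μH[2] (ψ '' A) := by
    refine (hall A hA).trans ?_
    gcongr
    rw [← ENNReal.ofReal_coe_nnreal]
    apply ENNReal.ofReal_le_ofReal
    linarith
  calc ENNReal.ofReal ((S : ℝ) + 1)⁻¹ * volume A
      ≤ ENNReal.ofReal ((S : ℝ) + 1)⁻¹ * (ENNReal.ofReal (S + 1) * μH[2] (ψ '' A)) := by gcongr
    _ = μH[2] (ψ '' A) := by
        rw [← mul_assoc, ← ENNReal.ofReal_mul (by positivity),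
          inv_mul_cancel₀ (by positivity), ENNReal.ofReal_one, one_mul]

end Pool.Agent.Helper904_QSG.PHM
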