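import Pool.Agent.Helper904_QSG.StmtsM
import Pool.Agent.Helper904_QS.Calc

/-!
# LCH: the coordinate Laplacian as an operator on `ℂ`.
-/

set_option autoImplicit false

open MeasureTheory Set Metric Filter Topology Bundle
open scoped ContDiff Manifold

namespace Pool.Agent.Helper904_QSG

open Pool.Agent.Helper904_QS

section
variable {E : Type} [NormedAddCommGroup E] [NormedSpace ℝ E] (B : Module.Basis (Fin 2) ℝ E)

theorem JJ_one : JJ B 1 = B 0 := by
  have h : (Complex.basisOneI.equiv B (Equiv.refl _)) (Complex.basisOneI 0) = B 0 :=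
    Module.Basis.equiv_apply _ _ _ _
  have h1 : Complex.basisOneI 0 = 1 := by simp
  rw [h1] at h
  exact h

theorem JJ_I : JJ B Complex.I = B 1 := by
  have h : (Complex.basisOneI.equiv B (Equiv.refl _)) (Complex.basisOneI 1) = B 1 :=
    Module.Basis.equiv_apply _ _ _ _
  have h1 : Complex.basisOneI 1 = Complex.I := by simp
  rw [h1] at h
  exact h

theorem fderiv_JJ (F : E → ℝ) (p v : ℂ) :
    fderiv ℝ (fun z => F (JJ B z)) p v = fderiv ℝ F (JJ B p) (JJ B v) := by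
  have := (JJ B).comp_right_fderiv (f := F) (x := p)
  have h2 : (F ∘ (JJ B : ℂ → E)) = fun z => F (JJ B z) := rfl
  rw [h2] at this
  rw [this]
  rfl

theorem pd_zero (F : E → ℝ) (p : ℂ) :
    fderiv ℝ F (JJ B p) (B 0) = dx (fun z => F (JJ B z)) p := by
  rw [dx, fderiv_JJ, JJ_one]

theorem pd_one (F : E → ℝ) (p : ℂ) :
    fderiv ℝ F (JJ B p) (B 1) = dy (fun z => F (JJ B z)) p := by
  rw [dy, fderiv_JJ, JJ_I]

end

namespace PLCH

theorem t_LCH : S_LCH := by
  intro E _ _ B M _ _ _ e f p hp hsym hpos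
  set Ω : Set ℂ := JJ B ⁻¹' e.target with hΩ
  have hΩo : IsOpen Ω := e.open_target.preimage (JJ B).continuous
  have hdet : ∀ y ∈ e.target,
      (gram B e y).det = gram B e y 0 0 * gram B e y 1 1 - gram B e y 0 1 ^ 2 := by
    intro y hy
    rw [Matrix.det_fin_two, ← hsym y hy]; ring
  have hinv : ∀ y ∈ e.target, ∀ i j, (gram B e y)⁻¹ i j =
      (gram B e y 0 0 * gram B e y 1 1 - gram B e y 0 1 ^ 2)⁻¹ * (gram B e y).adjugate i j := by
    intro y hy i j
    rw [Matrix.inv_def, Ring.inverse_eq_inv', hdet y hy]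
    simp
  have hadj : ∀ y ∈ e.target, (gram B e y).adjugate 0 0 = gram B e y 1 1 ∧
      (gram B e y).adjugate 0 1 = -gram B e y 0 1 ∧ (gram B e y).adjugate 1 0 = -gram B e y 0 1 ∧
      (gram B e y).adjugate 1 1 = gram B e y 0 0 := by
    intro y hy
    rw [Matrix.adjugate_fin_two]
    refine ⟨by simp, by simp, ?_, by simp⟩
    simp [hsym y hy]
  have hsq : ∀ D : ℝ, 0 < D → √D * D⁻¹ = (√D)⁻¹ := by
    intro D hD
    have h1 : √D * √D = D := Real.mul_self_sqrt hD.le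
    have h2 : 0 < √D := Real.sqrt_pos.2 hD
    rw [← div_eq_mul_inv, div_eq_iff hD.ne']
    nth_rewrite 3 [← h1]
    rw [inv_mul_cancel_left₀ h2.ne']
  have e0 : ∀ z ∈ Ω, √(gram B e (JJ B z)).det *
      ∑ j, (gram B e (JJ B z))⁻¹ 0 j * fderiv ℝ f (JJ B z) (B j) =
      (√(gram B e (JJ B z) 0 0 * gram B e (JJ B z) 1 1 - gram B e (JJ B z) 0 1 ^ 2))⁻¹ *
        (gram B e (JJ B z) 1 1 * dx (fun z => f (JJ B z)) z -
          gram B e (JJ B z) 0 1 * dy (fun z => f (JJ B z)) z) := by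
    intro z hz
    rw [Fin.sum_univ_two, hinv _ hz, hinv _ hz, hdet _ hz, (hadj _ hz).1, (hadj _ hz).2.1,
      pd_zero, pd_one, ← hsq _ (hpos _ hz)]
    ring
  have e1 : ∀ z ∈ Ω, √(gram B e (JJ B z)).det *
      ∑ j, (gram B e (JJ B z))⁻¹ 1 j * fderiv ℝ f (JJ B z) (B j) =
      (√(gram B e (JJ B z) 0 0 * gram B e (JJ B z) 1 1 - gram B e (JJ B z) 0 1 ^ 2))⁻¹ *
        (-(gram B e (JJ B z) 0 1 * dx (fun z => f (JJ B z)) z) +
          gram B e (JJ B z) 0 0 * dy (fun z => f (JJ B z)) z) := by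
    intro z hz
    rw [Fin.sum_univ_two, hinv _ hz, hinv _ hz, hdet _ hz, (hadj _ hz).2.2.1, (hadj _ hz).2.2.2,
      pd_zero, pd_one, ← hsq _ (hpos _ hz)]
    ring
  unfold lapChart LB
  rw [Fin.sum_univ_two, pd_zero, pd_one, hdet _ hp, dx_congr hΩo e0 p hp, dy_congr hΩo e1 p hp]

end PLCH

end Pool.Agent.Helper904_QSG
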