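import Pool.Agent.Helper904_QSG.StmtsM

/-!
# LIP: the charts of a Riemannian manifold are locally bi-Lipschitz.
-/

set_option autoImplicit false

open MeasureTheory Set Filter Topology Bundle Manifold Metric
open scoped ContDiff Manifold NNReal ENNReal

namespace Pool.Agent.Helper904_QSG.PLIP

open Pool.Agent.Helper904_QS Pool.Agent.Helper904_QSG

section general

variable
  {E : Type*} [NormedAddCommGroup E] [NormedSpace ℝ E]
  {H : Type*} [TopologicalSpace H] {I : ModelWithCorners ℝ E H}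
  {M : Type*} [MetricSpace M] [ChartedSpace H M]
  [RiemannianBundle (fun (x : M) ↦ TangentSpace I x)]
  [IsManifold I 1 M] [IsContinuousRiemannianBundle E (fun (x : M) ↦ TangentSpace I x)]

attribute [local instance] normedAddCommGroupTangentSpaceVectorSpace
attribute [local instance] normedSpaceTangentSpaceVectorSpace

variable (I)

set_option backward.isDefEq.respectTransparency false in
/-- two-point version of `eventually_riemannianEDist_le_edist_extChartAt` -/
lemma two_point_le (x : M) :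
    ∃ C : ℝ≥0, ∃ U ∈ 𝓝 x, U ⊆ (extChartAt I x).source ∧ ∀ y ∈ U, ∀ y' ∈ U,
    riemannianEDist I y y' ≤ C * edist (extChartAt I x y) (extChartAt I x y') := by
  rcases eventually_enorm_mfderivWithin_symm_extChartAt_lt I x with ⟨C, C_pos, hC⟩
  obtain ⟨r, r_pos, hr⟩ : ∃ r > 0,
      ball (extChartAt I x x) r ∩ range I ⊆ (extChartAt I x).target ∩
        {y | ‖mfderivWithin 𝓘(ℝ, E) I (extChartAt I x).symm (range I) y‖ₑ < C} :=
    mem_nhdsWithin_iff.1 (inter_mem (extChartAt_target_mem_nhdsWithin x) hC)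
  have A : (extChartAt I x) ⁻¹' (ball (extChartAt I x x) r ∩ range I) ∈ 𝓝 x := by
    apply extChartAt_preimage_mem_nhds_of_mem_nhdsWithin (by simp)
    rw [inter_comm]
    exact inter_mem_nhdsWithin _ (ball_mem_nhds _ r_pos)
  refine ⟨C, _, inter_mem A (chart_source_mem_nhds H x), ?_, ?_⟩
  · rintro z ⟨-, hz⟩
    rwa [extChartAt_source]
  rintro x₁ ⟨hx₁, h'x₁⟩ y ⟨hy, h'y⟩
  let η := ContinuousAffineMap.lineMap (R := ℝ) (extChartAt I x x₁) (extChartAt I x y)
  set γ := (extChartAt I x).symm ∘ η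
  have hη : Icc 0 1 ⊆ ⇑η ⁻¹' ((extChartAt I x).target ∩
        {y | ‖mfderivWithin 𝓘(ℝ, E) I (extChartAt I x).symm (range I) y‖ₑ < C}) := by
    simp only [← image_subset_iff, ContinuousAffineMap.coe_lineMap_eq,
     ← segment_eq_image_lineMap, η]
    apply Subset.trans _ hr
    exact ((convex_ball _ _).inter I.convex_range).segment_subset hx₁ hy
  simp only [preimage_inter, subset_inter_iff] at hη
  have η_smooth : ContMDiffOn 𝓘(ℝ, ℝ) 𝓘(ℝ, E) 1 η (Icc 0 1) := by
    apply ContMDiff.contMDiffOn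
    rw [contMDiff_iff_contDiff]
    exact ContinuousAffineMap.contDiff _
  have : riemannianEDist I x₁ y ≤ pathELength I γ 0 1 := by
    apply riemannianEDist_le_pathELength _ _ _ zero_le_one
    · exact (contMDiffOn_extChartAt_symm x).comp η_smooth hη.1
    · simp [γ, η, ContinuousAffineMap.coe_lineMap_eq, h'x₁]
    · simp [γ, η, ContinuousAffineMap.coe_lineMap_eq, h'y]
  apply this.trans
  rw [← lintegral_fderiv_lineMap_eq_edist, pathELength_eq_lintegral_mfderivWithin_Icc,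
    ← lintegral_const_mul' _ _ ENNReal.coe_ne_top]
  apply setLIntegral_mono' measurableSet_Icc (fun t ht ↦ ?_)
  have : mfderivWithin 𝓘(ℝ, ℝ) I γ (Icc 0 1) t =
      (mfderivWithin 𝓘(ℝ, E) I (extChartAt I x).symm (range I) (η t)) ∘L
        (mfderivWithin 𝓘(ℝ, ℝ) 𝓘(ℝ, E) η (Icc 0 1) t) := by
    apply mfderivWithin_comp
    · exact mdifferentiableWithinAt_extChartAt_symm (hη.1 ht)
    · exact η_smooth.mdifferentiableOn one_ne_zero t ht
    · exact hη.1.trans (preimage_mono (extChartAt_target_subset_range x))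
    · rw [uniqueMDiffWithinAt_iff_uniqueDiffWithinAt]
      exact uniqueDiffOn_Icc zero_lt_one t ht
  have : mfderivWithin 𝓘(ℝ, ℝ) I γ (Icc 0 1) t 1 =
      (mfderivWithin 𝓘(ℝ, E) I (extChartAt I x).symm (range I) (η t))
        (mfderivWithin 𝓘(ℝ, ℝ) 𝓘(ℝ, E) η (Icc 0 1) t 1) := congr($this 1)
  rw [this]
  apply (ContinuousLinearMap.le_opENorm _ _).trans
  gcongr
  · exact (hη.2 ht).le
  · simp only [mfderivWithin_eq_fderivWithin]
    exact le_of_eq rfl

set_option backward.isDefEq.respectTransparency false in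
/-- the extended chart is locally Lipschitz for the Riemannian distance -/
lemma two_point_ge [IsRiemannianManifold I M] (x : M) :
    ∃ C : ℝ≥0, ∃ U ∈ 𝓝 x, ∀ y ∈ U, ∀ y' ∈ U,
    edist (extChartAt I x y) (extChartAt I x y') ≤ C * edist y y' := by
  rcases eventually_enorm_mfderiv_extChartAt_lt I x with ⟨C, C_pos, hC⟩
  have hmem := inter_mem hC (chart_source_mem_nhds H x)
  obtain ⟨r, r_pos, hr⟩ := EMetric.mem_nhds_iff.1 hmem
  refine ⟨C, Metric.eball x (r / 3), Metric.eball_mem_nhds _ (by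
    apply ENNReal.div_pos r_pos.ne' (by norm_num)), ?_⟩
  intro y hy y' hy'
  have hyx : edist y x < r / 3 := hy
  have hyx' : edist y' x < r / 3 := hy'
  have hd : edist y y' < r / 3 + r / 3 := by
    calc edist y y' ≤ edist y x + edist y' x := edist_triangle_right _ _ _
      _ < r / 3 + r / 3 := ENNReal.add_lt_add hyx hyx'
  have hr3 : r / 3 + (r / 3 + r / 3) ≤ r := by
    have h1 : r / 3 + (r / 3 + r / 3) = 3 * (r / 3) := by ring
    rw [h1]
    exact ENNReal.mul_div_le
  have key : ∀ s : ℝ≥0∞, edist y y' < s → s ≤ r / 3 + r / 3 →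
      edist (extChartAt I x y) (extChartAt I x y') ≤ C * s := by
    intro s hs hs2
    rw [IsRiemannianManifold.out (I := I) y y'] at hs
    rcases exists_lt_locally_constant_of_riemannianEDist_lt hs zero_lt_one
      with ⟨γ, hγx, hγy, γ_smooth, hγ, -⟩
    have hin : ∀ t ∈ Icc (0 : ℝ) 1, γ t ∈ Metric.eball x r := by
      intro t ht
      have h1 : edist y (γ t) < r / 3 + r / 3 := by
        rw [IsRiemannianManifold.out (I := I) y (γ t)]
        calc riemannianEDist I y (γ t) ≤ pathELength I γ 0 t :=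
              riemannianEDist_le_pathELength γ_smooth.contMDiffOn hγx rfl ht.1
          _ ≤ pathELength I γ 0 1 := by
              gcongr
              exact ht.2
          _ < s := hγ
          _ ≤ r / 3 + r / 3 := hs2
      calc edist (γ t) x ≤ edist (γ t) y + edist y x := edist_triangle _ _ _
        _ < (r / 3 + r / 3) + r / 3 := by
            rw [edist_comm (γ t) y]
            exact ENNReal.add_lt_add h1 hyx
        _ ≤ r := by rwa [add_comm]
    have hin1 : ∀ t ∈ Icc (0 : ℝ) 1, γ t ∈ (chartAt H x).source := fun t ht => (hr (hin t ht)).2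
    have hin2 : ∀ t ∈ Icc (0 : ℝ) 1, ‖mfderiv I 𝓘(ℝ, E) (extChartAt I x) (γ t)‖ₑ < C :=
      fun t ht => (hr (hin t ht)).1
    let γ' := extChartAt I x ∘ γ
    have hC' : ContMDiffOn 𝓘(ℝ, ℝ) 𝓘(ℝ, E) 1 γ' (Icc 0 1) :=
      contMDiffOn_extChartAt.comp (I' := I) (t := (chartAt H x).source)
        γ_smooth.contMDiffOn (fun t' ht' ↦ hin1 t' ht')
    have : ‖γ' 1 - γ' 0‖ₑ ≤ C * s := by
      calc
        ‖γ' 1 - γ' 0‖ₑ
      _ ≤ ∫⁻ t' in Icc 0 1, ‖derivWithin γ' (Icc 0 1) t'‖ₑ := by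
        apply enorm_sub_le_lintegral_derivWithin_Icc_of_contDiffOn_Icc _ zero_le_one
        rwa [← contMDiffOn_iff_contDiffOn]
      _ = ∫⁻ t' in Icc 0 1, ‖mfderivWithin 𝓘(ℝ, ℝ) 𝓘(ℝ, E) γ' (Icc 0 1) t' 1‖ₑ := by
        simp_rw [← fderivWithin_derivWithin, mfderivWithin_eq_fderivWithin]
        rfl
      _ ≤ ∫⁻ t' in Icc 0 1, C * ‖mfderivWithin 𝓘(ℝ, ℝ) I γ (Icc 0 1) t' 1‖ₑ := by
        apply setLIntegral_mono' measurableSet_Icc (fun t' ht' ↦ ?_)
        have : mfderivWithin 𝓘(ℝ, ℝ) 𝓘(ℝ, E) γ' (Icc 0 1) t' =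
            (mfderiv I 𝓘(ℝ, E) (extChartAt I x) (γ t')) ∘L
              (mfderivWithin 𝓘(ℝ, ℝ) I γ (Icc 0 1) t') := by
          apply mfderiv_comp_mfderivWithin
          · exact mdifferentiableAt_extChartAt (hin1 t' ht')
          · exact (γ_smooth.mdifferentiable one_ne_zero).mdifferentiableOn _ ht'
          · rw [uniqueMDiffWithinAt_iff_uniqueDiffWithinAt]
            exact uniqueDiffOn_Icc zero_lt_one _ ht'
        have : mfderivWithin 𝓘(ℝ, ℝ) 𝓘(ℝ, E) γ' (Icc 0 1) t' 1 =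
            (mfderiv I 𝓘(ℝ, E) (extChartAt I x) (γ t'))
              (mfderivWithin 𝓘(ℝ, ℝ) I γ (Icc 0 1) t' 1) :=
          congr($this 1)
        rw [this]
        apply (ContinuousLinearMap.le_opENorm _ _).trans
        gcongr
        exact (hin2 t' ht').le
      _ = C * pathELength I γ 0 1 := by
        rw [lintegral_const_mul' _ _ ENNReal.coe_ne_top,
            pathELength_eq_lintegral_mfderivWithin_Icc]
      _ ≤ C * s := by
        gcongr
    rw [edist_comm, edist_eq_enorm_sub]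
    simpa [γ', hγx, hγy] using this
  have hC0 : (C : ℝ≥0∞) ≠ 0 := by simpa using C_pos.ne'
  have hCt : (C : ℝ≥0∞) ≠ ⊤ := ENNReal.coe_ne_top
  rw [mul_comm, ← ENNReal.div_le_iff hC0 hCt]
  apply le_of_forall_gt_imp_ge_of_dense
  intro s hs
  have h1 := key (min s (r / 3 + r / 3)) (lt_min hs hd) (min_le_right _ _)
  rw [mul_comm, ← ENNReal.div_le_iff hC0 hCt] at h1
  exact h1.trans (min_le_left _ _)

end general

/-- transition between two charts of the atlas is locally Lipschitz -/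
lemma transition {E : Type} [NormedAddCommGroup E] [NormedSpace ℝ E]
    {M : Type} [TopologicalSpace M] [ChartedSpace E M] [IsManifold 𝓘(ℝ, E) ∞ M]
    (e e' : OpenPartialHomeomorph M E) (he : e ∈ atlas E M) (he' : e' ∈ atlas E M) (x : M)
    (hx : x ∈ e.source) (hx' : x ∈ e'.source) :
    ∃ K : ℝ≥0, ∃ U ∈ 𝓝 x, U ⊆ e.source ∧ U ⊆ e'.source ∧ ∀ y ∈ U, ∀ y' ∈ U,
      edist (e' y) (e' y') ≤ K * edist (e y) (e y') := by
  have h1 : ContMDiffAt 𝓘(ℝ, E) 𝓘(ℝ, E) ∞ e.symm (e x) :=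
    contMDiffAt_symm_of_mem_maximalAtlas (IsManifold.subset_maximalAtlas he) (e.map_source hx)
  have h2 : ContMDiffAt 𝓘(ℝ, E) 𝓘(ℝ, E) ∞ e' (e.symm (e x)) := by
    rw [e.left_inv hx]
    exact contMDiffAt_of_mem_maximalAtlas (IsManifold.subset_maximalAtlas he') hx'
  have h3 : ContMDiffAt 𝓘(ℝ, E) 𝓘(ℝ, E) ∞ (e' ∘ e.symm) (e x) := h2.comp (e x) h1
  have h4 : ContDiffAt ℝ ∞ (e' ∘ e.symm) (e x) := contMDiffAt_iff_contDiffAt.mp h3
  obtain ⟨K, t, ht, hK⟩ := (h4.of_le (by simp)).exists_lipschitzOnWith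
  refine ⟨K, e ⁻¹' t ∩ (e.source ∩ e'.source), ?_, ?_, ?_, ?_⟩
  · apply inter_mem ((e.continuousAt hx).preimage_mem_nhds ht)
    exact inter_mem (e.open_source.mem_nhds hx) (e'.open_source.mem_nhds hx')
  · exact fun y hy => hy.2.1
  · exact fun y hy => hy.2.2
  · intro y hy y' hy'
    have := hK hy.1 hy'.1
    simpa [e.left_inv hy.2.1, e.left_inv hy'.2.1] using this

theorem t_LIP : S_LIP := by
  intro E _ _ _ M _ _ _ _ _ _ e he x hx
  have : IsContinuousRiemannianBundle E (fun x : M => TangentSpace 𝓘(ℝ, E) x) := by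
    obtain ⟨g, hg, hg'⟩ := IsContMDiffRiemannianBundle.exists_contMDiff (IB := 𝓘(ℝ, E))
      (n := (∞ : ℕ∞ω)) (F := E) (E := fun x : M => TangentSpace 𝓘(ℝ, E) x)
    exact ⟨g, hg.continuous, hg'⟩
  obtain ⟨C1, U1, hU1, hU1', h1⟩ := two_point_le 𝓘(ℝ, E) x
  obtain ⟨C2, U2, hU2, h2⟩ := two_point_ge 𝓘(ℝ, E) x
  obtain ⟨K1, V1, hV1, hV1a, hV1b, h3⟩ := transition e (chartAt E x) he
    (chart_mem_atlas E x) x hx (mem_chart_source E x)
  obtain ⟨K2, V2, hV2, hV2a, hV2b, h4⟩ := transition (chartAt E x) e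
    (chart_mem_atlas E x) he x (mem_chart_source E x) hx
  refine ⟨max (K2 * C2) (C1 * K1), U1 ∩ U2 ∩ (V1 ∩ V2), ?_, ?_, ?_, ?_⟩
  · exact inter_mem (inter_mem hU1 hU2) (inter_mem hV1 hV2)
  · exact fun y hy => hV1a hy.2.1
  · intro y hy y' hy'
    calc edist (e y) (e y') ≤ K2 * edist (chartAt E x y) (chartAt E x y') :=
          h4 y hy.2.2 y' hy'.2.2
      _ ≤ K2 * (C2 * edist y y') := by
          gcongr
          have := h2 y hy.1.2 y' hy'.1.2
          simpa using this
      _ = ((K2 * C2 : ℝ≥0) : ℝ≥0∞) * edist y y' := by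
          push_cast; ring
      _ ≤ _ := by
          gcongr
          exact le_max_left _ _
  · intro y hy y' hy'
    rw [IsRiemannianManifold.out (I := 𝓘(ℝ, E)) y y']
    calc riemannianEDist 𝓘(ℝ, E) y y' ≤ C1 * edist (chartAt E x y) (chartAt E x y') := by
          have := h1 y hy.1.1 y' hy'.1.1
          simpa using this
      _ ≤ C1 * (K1 * edist (e y) (e y')) := by
          gcongr
          exact h3 y hy.2.1 y' hy'.2.1
      _ = ((C1 * K1 : ℝ≥0) : ℝ≥0∞) * edist (e y) (e y') := by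
          push_cast; ring
      _ ≤ _ := by
          gcongr
          exact le_max_right _ _

end Pool.Agent.Helper904_QSG.PLIP
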