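import Pool.Agent.Helper904_QSG.StmtsM

/-!
# MET: the metric coefficients are smooth and positive definite.
-/

set_option autoImplicit false

open MeasureTheory Set Metric Filter Topology Bundle
open scoped ContDiff Manifold

namespace Pool.Agent.Helper904_QSG.PMET

open Pool.Agent.Helper904_QS Pool.Agent.Helper904_QSG

section
variable {E : Type} [NormedAddCommGroup E] [NormedSpace ℝ E]
variable {M : Type} [TopologicalSpace M] [ChartedSpace E M] [IsManifold 𝓘(ℝ, E) ∞ M]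

/-- a coordinate vector field is smooth as a map into the tangent bundle -/
theorem coordVec_smooth (e : OpenPartialHomeomorph M E) (he : e ∈ atlas E M) (v : E) :
    ContMDiffOn 𝓘(ℝ, E) 𝓘(ℝ, E).tangent ∞
      (fun y => (⟨e.symm y, coordVec e y v⟩ : TangentBundle 𝓘(ℝ, E) M)) e.target := by
  have h1 : ContMDiffOn 𝓘(ℝ, E) 𝓘(ℝ, E) ∞ e.symm e.target :=
    contMDiffOn_symm_of_mem_maximalAtlas (IsManifold.subset_maximalAtlas he)
  have hu : UniqueMDiffOn 𝓘(ℝ, E) e.target := e.open_target.uniqueMDiffOn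
  have h2 := h1.contMDiffOn_tangentMapWithin (m := ∞) (by simp) hu
  have h3 : ContMDiffOn 𝓘(ℝ, E) 𝓘(ℝ, E).tangent ∞
      (fun y : E => (⟨y, v⟩ : TangentBundle 𝓘(ℝ, E) E))
      e.target := by
    have := contMDiffOn_vectorSpace_iff_contDiffOn (𝕜 := ℝ) (n := ∞) (s := e.target)
      (V := fun _ : E => v)
    exact this.mpr contDiffOn_const
  have h4 := h2.comp h3 (fun y hy => hy)
  refine h4.congr ?_
  intro y hy
  simp only [Function.comp, tangentMapWithin]
  unfold coordVec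
  rw [mfderivWithin_of_mem_nhds (e.open_target.mem_nhds hy)]

/-- the derivative of the inverse chart is injective -/
theorem coordVec_inj (e : OpenPartialHomeomorph M E) (he : e ∈ atlas E M) (y : E)
    (hy : y ∈ e.target) :
    Function.Injective (mfderiv 𝓘(ℝ, E) 𝓘(ℝ, E) e.symm y) := by
  have h1 : MDifferentiableAt 𝓘(ℝ, E) 𝓘(ℝ, E) e.symm y :=
    (contMDiffAt_symm_of_mem_maximalAtlas (n := ∞) (IsManifold.subset_maximalAtlas he)
      hy).mdifferentiableAt (by simp)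
  have h2 : MDifferentiableAt 𝓘(ℝ, E) 𝓘(ℝ, E) e (e.symm y) :=
    (contMDiffAt_of_mem_maximalAtlas (n := ∞) (IsManifold.subset_maximalAtlas he)
      (e.map_target hy)).mdifferentiableAt (by simp)
  have h3 : mfderiv 𝓘(ℝ, E) 𝓘(ℝ, E) (e ∘ e.symm) y =
      (mfderiv 𝓘(ℝ, E) 𝓘(ℝ, E) e (e.symm y)).comp (mfderiv 𝓘(ℝ, E) 𝓘(ℝ, E) e.symm y) :=
    mfderiv_comp y h2 h1
  have h4 : mfderiv 𝓘(ℝ, E) 𝓘(ℝ, E) (e ∘ e.symm) y =
      ContinuousLinearMap.id ℝ (TangentSpace 𝓘(ℝ, E) y) := by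
    have : (e ∘ e.symm) =ᶠ[𝓝 y] id := by
      filter_upwards [e.open_target.mem_nhds hy] with z hz
      exact e.right_inv hz
    rw [this.mfderiv_eq]
    exact mfderiv_id
  intro v w hvw
  have h5 : (mfderiv 𝓘(ℝ, E) 𝓘(ℝ, E) (e ∘ e.symm) y) v =
      (mfderiv 𝓘(ℝ, E) 𝓘(ℝ, E) (e ∘ e.symm) y) w := by
    rw [h3]
    simp only [ContinuousLinearMap.comp_apply]
    rw [hvw]
  rw [h4] at h5
  exact h5

theorem coordVec_ind (B : Module.Basis (Fin 2) ℝ E) (e : OpenPartialHomeomorph M E)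
    (he : e ∈ atlas E M) (y : E)
    (hy : y ∈ e.target) (s t : ℝ) (h : s • coordVec e y (B 0) + t • coordVec e y (B 1) = 0) :
    s = 0 ∧ t = 0 := by
  have hinj := coordVec_inj e he y hy
  have h1 : mfderiv 𝓘(ℝ, E) 𝓘(ℝ, E) e.symm y
      ((s • B 0 + t • B 1 : E) : TangentSpace 𝓘(ℝ, E) y) = 0 := by
    have h2 : mfderiv 𝓘(ℝ, E) 𝓘(ℝ, E) e.symm y
      ((s • B 0 + t • B 1 : E) : TangentSpace 𝓘(ℝ, E) y) =
        s • coordVec e y (B 0) + t • coordVec e y (B 1) := by
      have h3 := (mfderiv 𝓘(ℝ, E) 𝓘(ℝ, E) e.symm y).map_add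
        (s • (B 0 : E) : TangentSpace 𝓘(ℝ, E) y)
        (t • (B 1 : E) : TangentSpace 𝓘(ℝ, E) y)
      have h4 := (mfderiv 𝓘(ℝ, E) 𝓘(ℝ, E) e.symm y).map_smul s
        ((B 0 : E) : TangentSpace 𝓘(ℝ, E) y)
      have h5 := (mfderiv 𝓘(ℝ, E) 𝓘(ℝ, E) e.symm y).map_smul t
        ((B 1 : E) : TangentSpace 𝓘(ℝ, E) y)
      unfold coordVec
      rw [← h4, ← h5]
      exact h3
    rw [h2, h]
  have h6 : (s • B 0 + t • B 1 : E) = 0 := by
    apply hinj
    rw [h1]
    exact ((mfderiv 𝓘(ℝ, E) 𝓘(ℝ, E) e.symm y).map_zero).symm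
  have hl := B.linearIndependent
  rw [Fintype.linearIndependent_iff] at hl
  have h7 := hl ![s, t] (by rw [Fin.sum_univ_two]; simpa using h6)
  exact ⟨h7 0, h7 1⟩

theorem coordVec_ne (B : Module.Basis (Fin 2) ℝ E) (e : OpenPartialHomeomorph M E)
    (he : e ∈ atlas E M) (y : E)
    (hy : y ∈ e.target) : coordVec e y (B 0) ≠ 0 := by
  intro h
  have := coordVec_ind B e he y hy 1 0 (by rw [h]; simp)
  exact one_ne_zero this.1

end

/-- strict Cauchy-Schwarz -/
theorem gram_det_pos {V : Type*} [NormedAddCommGroup V] [InnerProductSpace ℝ V] (a b : V)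
    (ha : a ≠ 0) (h : ∀ s t : ℝ, s • a + t • b = 0 → s = 0 ∧ t = 0) :
    0 < inner ℝ a a * inner ℝ b b - (inner ℝ a b) ^ 2 := by
  have haa : 0 < inner ℝ a a := real_inner_self_pos.mpr ha
  have hne : (-(inner ℝ a b)) • a + (inner ℝ a a) • b ≠ 0 := by
    intro h0
    have := (h _ _ h0).2
    linarith
  have hp := real_inner_self_pos.mpr hne
  have e : inner ℝ ((-(inner ℝ a b)) • a + (inner ℝ a a) • b)
      ((-(inner ℝ a b)) • a + (inner ℝ a a) • b) =
      inner ℝ a a * (inner ℝ a a * inner ℝ b b - (inner ℝ a b) ^ 2) := by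
    simp only [inner_add_left, inner_add_right, inner_smul_left, inner_smul_right,
      real_inner_comm a b]
    simp
    ring
  rw [e] at hp
  exact (pos_iff_pos_of_mul_pos hp).mp haa

theorem t_MET : S_MET := by
  intro E _ _ B M _ _ _ _ _ e he
  refine ⟨?_, ?_, ?_, ?_⟩
  · intro i j
    have h1 := coordVec_smooth e he (B i)
    have h2 := coordVec_smooth e he (B j)
    have h := ContMDiffOn.inner_bundle (IB := 𝓘(ℝ, E)) (n := (∞ : ℕ∞ω)) (F := E)
      (E := fun x : M => TangentSpace 𝓘(ℝ, E) x) (b := fun y => e.symm y)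
      (v := fun y => coordVec e y (B i)) (w := fun y => coordVec e y (B j)) h1 h2
    exact contMDiffOn_iff_contDiffOn.mp h
  · intro y hy
    change inner ℝ (coordVec e y (B 0)) (coordVec e y (B 1)) =
      inner ℝ (coordVec e y (B 1)) (coordVec e y (B 0))
    exact real_inner_comm _ _
  · intro y hy
    change 0 < inner ℝ (coordVec e y (B 0)) (coordVec e y (B 0))
    exact real_inner_self_pos.mpr (coordVec_ne B e he y hy)
  · intro y hy
    change 0 < inner ℝ (coordVec e y (B 0)) (coordVec e y (B 0)) *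
      inner ℝ (coordVec e y (B 1)) (coordVec e y (B 1)) -
      (inner ℝ (coordVec e y (B 0)) (coordVec e y (B 1))) ^ 2
    exact gram_det_pos (coordVec e y (B 0)) (coordVec e y (B 1)) (coordVec_ne B e he y hy)
      (coordVec_ind B e he y hy)

end Pool.Agent.Helper904_QSG.PMET
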