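import Pool.Agent.Helper904_QSG.StmtsM
import Pool.Agent.Helper904_QS.Calc

/-!
# PAR: existence of isothermal discs, from ISO, LBI, LCH, MET.
-/

set_option autoImplicit false

open MeasureTheory Set Metric Filter Topology Bundle
open scoped ContDiff Manifold

namespace Pool.Agent.Helper904_QSG.PPAR

open Pool.Agent.Helper904_QS Pool.Agent.Helper904_QSG

theorem split (v : ℂ) : v = v.re • (1 : ℂ) + v.im • Complex.I := by
  apply Complex.ext <;> simp

/-- the derivative of an isothermal map is injective -/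
theorem imm_of_qf (a b c : ℂ → ℝ) (p : ℂ) (s : ℝ) (hs : 0 < s) (A : ℂ →L[ℝ] ℂ)
    (h1 : qf a b c p (A 1) (A 1) = s ^ 2) (h2 : qf a b c p (A Complex.I) (A Complex.I) = s ^ 2)
    (h3 : qf a b c p (A 1) (A Complex.I) = 0) : Function.Injective A := by
  rw [injective_iff_map_eq_zero]
  intro v hv
  have e : A v = v.re • A 1 + v.im • A Complex.I := by
    conv_lhs => rw [split v]
    rw [map_add, map_smul, map_smul]
  rw [e] at hv
  have hs2 : 0 < s ^ 2 := by positivity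
  have q0 : qf a b c p (v.re • A 1 + v.im • A Complex.I) (v.re • A 1 + v.im • A Complex.I) =
      (v.re ^ 2 + v.im ^ 2) * s ^ 2 := by
    have : qf a b c p (v.re • A 1 + v.im • A Complex.I) (v.re • A 1 + v.im • A Complex.I) =
        v.re ^ 2 * qf a b c p (A 1) (A 1) + 2 * v.re * v.im * qf a b c p (A 1) (A Complex.I) +
        v.im ^ 2 * qf a b c p (A Complex.I) (A Complex.I) := by
      unfold qf
      simp
      ring
    rw [this, h1, h2, h3]
    ring
  rw [hv] at q0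
  have q1 : qf a b c p 0 0 = 0 := by unfold qf; simp
  rw [q1] at q0
  have q2 : v.re ^ 2 + v.im ^ 2 = 0 := by
    rcases mul_eq_zero.mp q0.symm with h | h
    · exact h
    · exact absurd h hs2.ne'
  have q3 : v.re = 0 := by nlinarith [sq_nonneg v.re, sq_nonneg v.im]
  have q4 : v.im = 0 := by nlinarith [sq_nonneg v.re, sq_nonneg v.im]
  exact Complex.ext q3 q4

theorem t_PAR (hISO : S_ISO) (hLBI : S_LBI) (hLCH : S_LCH) (hMET : S_MET) : S_PAR := by
  intro E _ _ B M _ _ _ _ _ x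
  set e : OpenPartialHomeomorph M E := chartAt E x with he
  have hea : e ∈ atlas E M := chart_mem_atlas E x
  obtain ⟨m1, m2, m3, m4⟩ := hMET E B M e hea
  set a : ℂ → ℝ := fun z => gram B e ((JJ B) z) 0 0 with ha
  set b : ℂ → ℝ := fun z => gram B e ((JJ B) z) 0 1 with hb
  set c : ℂ → ℝ := fun z => gram B e ((JJ B) z) 1 1 with hc
  set Ω : Set ℂ := (JJ B) ⁻¹' e.target with hΩ
  have hΩo : IsOpen Ω := e.open_target.preimage (JJ B).continuous
  have sJ : ContDiff ℝ ∞ (fun z : ℂ => (JJ B) z) := (JJ B).contDiff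
  have sa : ContDiffOn ℝ ∞ a Ω := (m1 0 0).comp sJ.contDiffOn (fun z hz => hz)
  have sb : ContDiffOn ℝ ∞ b Ω := (m1 0 1).comp sJ.contDiffOn (fun z hz => hz)
  have sc : ContDiffOn ℝ ∞ c Ω := (m1 1 1).comp sJ.contDiffOn (fun z hz => hz)
  set p : ℂ := (JJ B).symm (e x) with hp
  have hJp : (JJ B) p = e x := by rw [hp]; exact (JJ B).apply_symm_apply _
  have hpΩ : p ∈ Ω := by
    change (JJ B) p ∈ e.target
    rw [hJp]
    exact e.map_source (mem_chart_source E x)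
  have nΩ : Ω ∈ 𝓝 p := hΩo.mem_nhds hpΩ
  obtain ⟨h, σ, sh, sσ, h0, hmap, hinj, hσ, hq⟩ := hISO a b c p Ω nΩ (sa.contDiffAt nΩ)
    (sb.contDiffAt nΩ) (sc.contDiffAt nΩ) (m3 _ hpΩ) (m4 _ hpΩ)
  have hmap' : ∀ z ∈ ball (0 : ℂ) 2, (JJ B) (h z) ∈ e.target := fun z hz => hmap hz
  set ψ : ℂ → M := fun z => e.symm ((JJ B) (h z)) with hψ
  have heψ : ∀ z ∈ ball (0 : ℂ) 2, e (ψ z) = (JJ B) (h z) := fun z hz => e.right_inv (hmap' z hz)
  have nb : ∀ z ∈ ball (0 : ℂ) 2, ball (0 : ℂ) 2 ∈ 𝓝 z := fun z hz => isOpen_ball.mem_nhds hz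
  have shz : ∀ z ∈ ball (0 : ℂ) 2, ContDiffAt ℝ 5 h z := fun z hz => sh.contDiffAt (nb z hz)
  have dh : ∀ z ∈ ball (0 : ℂ) 2, DifferentiableAt ℝ h z := fun z hz =>
    (shz z hz).differentiableAt (by norm_num)
  have himm : ∀ z ∈ ball (0 : ℂ) 2, Function.Injective (fderiv ℝ h z) := fun z hz =>
    imm_of_qf a b c (h z) (σ z) (hσ z hz) (fderiv ℝ h z) (hq z hz).1 (hq z hz).2.1 (hq z hz).2.2
  have hopen : ∀ U : Set ℂ, U ⊆ ball 0 2 → IsOpen U → IsOpen (h '' U) := by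
    intro U hU hUo
    rw [isOpen_iff_mem_nhds]
    rintro _ ⟨z, hz, rfl⟩
    let L : ℂ ≃L[ℝ] ℂ := (LinearEquiv.ofInjectiveOfFinrankEq
      (fderiv ℝ h z : ℂ →ₗ[ℝ] ℂ) (himm z (hU hz)) rfl).toContinuousLinearEquiv
    have hL : HasFDerivAt h (L : ℂ →L[ℝ] ℂ) z := by
      convert! (dh z (hU hz)).hasFDerivAt using 1
    have hs : HasStrictFDerivAt h (L : ℂ →L[ℝ] ℂ) z :=
      (shz z (hU hz)).hasStrictFDerivAt' hL (by norm_num)
    rw [← hs.map_nhds_eq_of_equiv]
    exact image_mem_map (hUo.mem_nhds hz)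
  refine ⟨e, ψ, σ, ⟨hea, ?_, ?_, ?_, ?_, ?_, ?_, sσ, hσ, ?_⟩, ?_⟩
  · intro z hz
    exact e.map_target (hmap' z hz)
  · apply ContinuousOn.comp (t := e.target) e.continuousOn_symm
    · exact (JJ B).continuous.comp_continuousOn sh.continuousOn
    · exact fun z hz => hmap' z hz
  · have : ContDiffOn ℝ 5 (fun z => (JJ B) (h z)) (ball 0 2) :=
      (sJ.of_le ENat.LEInfty.out).comp_contDiffOn sh
    exact this.congr heψ
  · intro z hz z' hz' hzz
    have h1 : (JJ B) (h z) = (JJ B) (h z') := by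
      rw [← heψ z hz, ← heψ z' hz', hzz]
    exact hinj hz hz' ((JJ B).injective h1)
  · intro z hz
    have h1 : (fun z => e (ψ z)) =ᶠ[𝓝 z] fun z => (JJ B) (h z) := by
      filter_upwards [nb z hz] with y hy using heψ y hy
    have h2 : HasFDerivAt (fun z => (JJ B) (h z))
        (((JJ B) : ℂ →L[ℝ] E).comp (fderiv ℝ h z)) z :=
      (JJ B).hasFDerivAt.comp z (dh z hz).hasFDerivAt
    rw [h1.fderiv_eq, h2.fderiv]
    intro v w hvw
    exact himm z hz ((JJ B).injective hvw)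
  · intro U hU hUo
    have h1 : IsOpen (h '' U) := hopen U hU hUo
    have h2 : IsOpen ((JJ B) '' (h '' U)) := (JJ B).toHomeomorph.isOpenMap _ h1
    have h3 : ψ '' U = e.symm '' ((JJ B) '' (h '' U)) := by
      rw [image_image, image_image]
    rw [h3]
    apply e.isOpen_image_symm_of_subset_target h2
    rintro _ ⟨_, ⟨z, hz, rfl⟩, rfl⟩
    exact hmap' z (hU hz)
  · intro lam φ hφ z hz
    obtain ⟨sφ, -, hφe⟩ := hφ
    set F : ℂ → ℝ := fun z => φ (e.symm ((JJ B) z)) with hF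
    have sF0 : ContDiffOn ℝ ∞ (fun y : E => φ (e.symm y)) e.target := by
      have h1 : ContMDiffOn 𝓘(ℝ, E) 𝓘(ℝ, E) ∞ e.symm e.target :=
        contMDiffOn_symm_of_mem_maximalAtlas (IsManifold.subset_maximalAtlas hea)
      have h2 : ContMDiffOn 𝓘(ℝ, E) 𝓘(ℝ, ℝ) ∞ (φ ∘ e.symm) e.target := sφ.comp_contMDiffOn h1
      exact contMDiffOn_iff_contDiffOn.mp h2
    have sF : ContDiffOn ℝ ∞ F Ω := sF0.comp sJ.contDiffOn (fun z hz => hz)
    have hl := hLBI a b c F h σ Ω hΩo (sa.of_le ENat.LEInfty.out) (sb.of_le ENat.LEInfty.out)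
      (sc.of_le ENat.LEInfty.out) (sF.of_le ENat.LEInfty.out)
      (fun q hq => ⟨m3 _ hq, m4 _ hq⟩) (sh.of_le (by norm_num)) hmap hσ hq z hz
    have hc' := hLCH E B M e (fun y => φ (e.symm y)) (h z) (hmap' z hz) m2 m4
    have he' := hφe e hea ((JJ B) (h z)) (hmap' z hz)
    rw [hc'] at he'
    change lap (fun y => F (h y)) z = -(lam * σ z ^ 2 * φ (e.symm ((JJ B) (h z))))
    rw [hl]
    have he2 : LB a b c F (h z) = -(lam * φ (e.symm ((JJ B) (h z)))) := by linarith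
    rw [he2]
    ring
  · change e.symm ((JJ B) (h 0)) = x
    rw [h0, hJp]
    exact e.left_inv (mem_chart_source E x)

end Pool.Agent.Helper904_QSG.PPAR
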