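import Pool.Agent.Helper904_QSG.StmtsM
import Pool.Agent.Helper904_QS.Calc

/-!
# FIN: the assembly on the surface, from PAR, CMP, CA, HM1, HM2.
-/

set_option autoImplicit false

open MeasureTheory Set Metric Filter Topology Bundle
open scoped ContDiff Manifold

namespace Pool.Agent.Helper904_QSG.PFIN

open Pool.Agent.Helper904_QS Pool.Agent.Helper904_QSG

/-- a smooth cutoff: `1` on the closed ball of radius `7/4`, supported in the ball of radius `2` -/
noncomputable def cut : ContDiffBump (0 : ℂ) := ⟨7 / 4, 15 / 8, by norm_num, by norm_num⟩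

theorem cut_smooth (g : ℂ → ℝ) (n : ℕ) (hg : ContDiffOn ℝ (n : ℕ∞ω) g (ball 0 2)) :
    ContDiff ℝ (n : ℕ∞ω) (fun z => cut z * g z) := by
  rw [contDiff_iff_contDiffAt]
  intro z
  by_cases hz : z ∈ ball (0 : ℂ) 2
  · have h1 : ContDiffAt ℝ (n : ℕ∞ω) g z := hg.contDiffAt (isOpen_ball.mem_nhds hz)
    exact (cut.contDiff.contDiffAt).mul h1
  · have hz' : z ∈ (closedBall (0 : ℂ) (15 / 8))ᶜ := by
      rw [mem_compl_iff, mem_closedBall, not_le]
      rw [mem_ball, not_lt] at hz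
      linarith
    have h : (fun z => cut z * g z) =ᶠ[𝓝 z] fun _ => 0 := by
      filter_upwards [isClosed_closedBall.isOpen_compl.mem_nhds hz'] with y hy
      have h0 : cut y = 0 := by
        apply cut.zero_of_le_dist
        rw [mem_compl_iff, mem_closedBall, not_le] at hy
        exact hy.le
      rw [h0, zero_mul]
    exact contDiffAt_const.congr_of_eventuallyEq h

theorem cut_one (g : ℂ → ℝ) (z : ℂ) (hz : z ∈ closedBall (0 : ℂ) (7 / 4)) :
    cut z * g z = g z := by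
  rw [cut.one_of_mem_closedBall hz, one_mul]

theorem exists_min {ι : Type} [Fintype ι] (c : ι → ℝ) (hc : ∀ i, 0 < c i) :
    ∃ d : ℝ, 0 < d ∧ ∀ i, d ≤ c i := by
  rcases isEmpty_or_nonempty ι with h | h
  · exact ⟨1, one_pos, fun i => (h.false i).elim⟩
  · obtain ⟨i, hi⟩ := Finite.exists_min c
    exact ⟨c i, hc i, hi⟩

theorem t_FIN (hPAR : S_PAR) (hCMP : S_CMP) (hCA : S_CA) (hHM1 : S_HM1) (hHM2 : S_HM2) :
    S_FIN := by
  intro E _ _ B M _ _ _ _ _ _ _ _ _ _
  choose e₀ ψ₀ σ₀ hI₀ h0₀ using hPAR E B M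
  -- finite cover
  have hop : ∀ x : M, IsOpen (ψ₀ x '' ball 0 (1 / 2)) := fun x =>
    (hI₀ x).opn _ (ball_subset_ball (by norm_num)) isOpen_ball
  have hcov : ∀ x : M, x ∈ ψ₀ x '' ball 0 (1 / 2) := fun x =>
    ⟨0, mem_ball_self (by norm_num), h0₀ x⟩
  obtain ⟨t, ht⟩ := isCompact_univ.elim_finite_subcover (fun x : M => ψ₀ x '' ball 0 (1 / 2)) hop
    (fun x _ => mem_iUnion.mpr ⟨x, hcov x⟩)
  let ι : Type := {x : M // x ∈ t}
  let e : ι → OpenPartialHomeomorph M E := fun i => e₀ i.1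
  let ψ : ι → ℂ → M := fun i => ψ₀ i.1
  let σ : ι → ℂ → ℝ := fun i => σ₀ i.1
  have hI : ∀ i : ι, IsoPar B M (e i) (ψ i) (σ i) := fun i => hI₀ i.1
  let σ' : ι → ℂ → ℝ := fun i z => cut z * σ i z
  have hAtl : Atl M ι ψ σ' := by
    refine ⟨fun i => (hI i).cont, fun i => (hI i).opn, ?_, ?_, ?_⟩
    · intro x
      have := ht (mem_univ x)
      simp only [mem_iUnion] at this
      obtain ⟨i, hi, z, hz, hzx⟩ := this
      exact ⟨⟨i, hi⟩, z, hz, hzx⟩
    · intro i
      exact cut_smooth (σ i) 3 ((hI i).ssm.of_le (by norm_num))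
    · intro i z hz
      change 0 < cut z * σ i z
      rw [cut_one _ z hz]
      exact (hI i).spos z (closedBall_subset_ball (by norm_num) hz)
  have hComp : Comp M ι ψ σ' := by
    obtain ⟨C, hC, h⟩ := hCMP E B M ι e ψ σ hI
    exact ⟨C, hC, fun k u f _ hE => h u f hE.sm hE.rep⟩
  obtain ⟨c, hc, hca⟩ := hCA M ι ψ σ' hAtl hComp
  choose d hd hd2 using fun i : ι => hHM2 E B M (e i) (ψ i) (σ i) (hI i)
  obtain ⟨δ, hδ, hδ2⟩ := exists_min d hd
  have hfin := hHM1 E B M
  set H : ℝ := (μH[2] (univ : Set M)).toReal with hH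
  have hH0 : 0 ≤ H := ENNReal.toReal_nonneg
  have hc' : 0 < δ * c := by positivity
  refine ⟨δ * c / (H + 1), (H + 1) / (δ * c), by positivity, by positivity, ?_⟩
  intro lam φ hlam hφ
  set k : ℝ := √lam with hk
  have hk0 : 0 < k := Real.sqrt_pos.mpr hlam
  have hk2 : k ^ 2 = lam := Real.sq_sqrt hlam.le
  let f : ι → ℂ → ℝ := fun i z => cut z * φ (ψ i z)
  have sφ : ∀ i : ι, ContDiffOn ℝ 5 (fun z => φ (ψ i z)) (ball 0 2) := by
    intro i
    have h1 : ContMDiffOn 𝓘(ℝ, E) 𝓘(ℝ, E) ∞ (e i).symm (e i).target :=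
      contMDiffOn_symm_of_mem_maximalAtlas (IsManifold.subset_maximalAtlas (hI i).chart)
    have h2 : ContMDiffOn 𝓘(ℝ, E) 𝓘(ℝ, ℝ) ∞ (φ ∘ (e i).symm) (e i).target :=
      hφ.1.comp_contMDiffOn h1
    have h3 : ContDiffOn ℝ ∞ (φ ∘ (e i).symm) (e i).target := contMDiffOn_iff_contDiffOn.mp h2
    have h4 : ContDiffOn ℝ 5 ((φ ∘ (e i).symm) ∘ (fun z => e i (ψ i z))) (ball 0 2) :=
      (h3.of_le ENat.LEInfty.out).comp (hI i).sm
        (fun z hz => (e i).map_source ((hI i).src z hz))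
    refine h4.congr ?_
    intro z hz
    simp only [Function.comp]
    rw [(e i).left_inv ((hI i).src z hz)]
  have hEig : Eig M ι ψ σ' k φ f := by
    refine ⟨?_, ?_, ?_, hφ.2.1⟩
    · intro i
      exact cut_smooth (fun z => φ (ψ i z)) 4 ((sφ i).of_le (by norm_num))
    · intro i z hz
      exact cut_one (fun z => φ (ψ i z)) z (ball_subset_closedBall hz)
    · intro i z hz
      have hz2 : z ∈ ball (0 : ℂ) 2 := ball_subset_ball (by norm_num) hz
      have h1 : lap (f i) z = lap (fun z => φ (ψ i z)) z :=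
        lap_congr isOpen_ball
          (fun y hy => cut_one (fun z => φ (ψ i z)) y (ball_subset_closedBall hy)) z hz
      have h2 := (hI i).eig lam φ hφ z hz2
      have h3 : σ' i z = σ i z := cut_one (σ i) z (ball_subset_closedBall hz)
      have h4 : f i z = φ (ψ i z) :=
        cut_one (fun z => φ (ψ i z)) z (ball_subset_closedBall hz)
      rw [h1, h2, h3, h4, hk2]
  obtain ⟨⟨i, hi⟩, j, hj⟩ := hca k φ f hk0 hEig
  -- lower bound for the measure of an image
  have key : ∀ (i : ι) (A : Set ℂ) (S : Set M), A ⊆ ball 0 (3 / 2) →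
      c ≤ volume.real A → ψ i '' A ⊆ S → δ * c ≤ (μH[2] S).toReal := by
    intro i A S hA hcA hS
    have hAf : volume A ≠ ⊤ := by
      apply ne_top_of_le_ne_top _ (measure_mono hA)
      exact measure_ball_lt_top.ne
    have hSf : μH[2] S ≠ ⊤ := ne_top_of_le_ne_top hfin.ne (measure_mono (subset_univ S))
    have h1 : ENNReal.ofReal (d i) * volume A ≤ μH[2] S := (hd2 i A hA).trans (measure_mono hS)
    have h2 := ENNReal.toReal_mono hSf h1
    rw [ENNReal.toReal_mul, ENNReal.toReal_ofReal (hd i).le] at h2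
    calc δ * c ≤ d i * c := mul_le_mul_of_nonneg_right (hδ2 i) hc.le
      _ ≤ d i * (volume A).toReal := mul_le_mul_of_nonneg_left hcA (hd i).le
      _ ≤ _ := h2
  have hpos : δ * c ≤ (μH[2] {x : M | 0 < φ x}).toReal := by
    apply key i _ _ (fun z hz => hz.1) hi
    rintro _ ⟨z, ⟨hz, hz2⟩, rfl⟩
    have h4 : f i z = φ (ψ i z) :=
      cut_one (fun z => φ (ψ i z)) z (ball_subset_closedBall (ball_subset_ball (by norm_num) hz))
    rw [h4] at hz2
    exact hz2
  have hneg : δ * c ≤ (μH[2] {x : M | φ x < 0}).toReal := by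
    apply key j _ _ (fun z hz => hz.1) hj
    rintro _ ⟨z, ⟨hz, hz2⟩, rfl⟩
    have h4 : f j z = φ (ψ j z) :=
      cut_one (fun z => φ (ψ j z)) z (ball_subset_closedBall (ball_subset_ball (by norm_num) hz))
    rw [h4] at hz2
    exact hz2
  have hle : ∀ S : Set M, (μH[2] S).toReal ≤ H := fun S =>
    ENNReal.toReal_mono hfin.ne (measure_mono (subset_univ S))
  set P := (μH[2] {x : M | 0 < φ x}).toReal
  set N := (μH[2] {x : M | φ x < 0}).toReal
  have hP := hle {x : M | 0 < φ x}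
  have hN := hle {x : M | φ x < 0}
  have hN0 : 0 < N := hc'.trans_le hneg
  constructor
  · rw [div_lt_div_iff₀ (by positivity) hN0]
    nlinarith
  · rw [div_lt_div_iff₀ hN0 hc']
    nlinarith

end Pool.Agent.Helper904_QSG.PFIN
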