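import Mathlib

/-!
# MP_177f55_an: the Laplace-Beltrami operator of a Riemannian surface, eigenfunctions.

The surface is modelled on a real normed space `E` with a basis `b = (b 0, b 1)`, for instance
`EuclideanSpace ℝ (Fin 2)` or `ℂ` seen as a real plane. Smoothness is real smoothness.
-/

set_option autoImplicit false

open MeasureTheory Set Filter Topology Bundle
open scoped ContDiff Manifold

namespace Pool.Agent.Helper904_QSG

section
variable {E : Type} [NormedAddCommGroup E] [NormedSpace ℝ E]
variable {M : Type} [TopologicalSpace M] [ChartedSpace E M]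

/-- The tangent vector of `M`, at the point with coordinates `y` in the chart `e`, which has the
coordinates `v` in this chart. -/
noncomputable def coordVec (e : OpenPartialHomeomorph M E) (y v : E) :
    TangentSpace 𝓘(ℝ, E) (e.symm y) :=
  mfderiv 𝓘(ℝ, E) 𝓘(ℝ, E) e.symm y v

variable [RiemannianBundle (fun x : M => TangentSpace 𝓘(ℝ, E) x)]

/-- The coefficients `g_ij` of the Riemannian metric in the chart `e`, with respect to the
coordinates of `E` given by the basis `b`. -/
noncomputable def gram (b : Module.Basis (Fin 2) ℝ E) (e : OpenPartialHomeomorph M E) (y : E) :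
    Matrix (Fin 2) (Fin 2) ℝ :=
  Matrix.of fun i j => inner ℝ (coordVec e y (b i)) (coordVec e y (b j))

/-- The Laplace-Beltrami operator in the chart `e`:
`(det g)^(-1/2) ∑_i ∂_i ((det g)^(1/2) ∑_j g^ij ∂_j f)`. -/
noncomputable def lapChart (b : Module.Basis (Fin 2) ℝ E) (e : OpenPartialHomeomorph M E)
    (f : E → ℝ) (y : E) : ℝ :=
  (√(gram b e y).det)⁻¹ *
    ∑ i, fderiv ℝ (fun z => √(gram b e z).det * ∑ j, (gram b e z)⁻¹ i j * fderiv ℝ f z (b j)) y (b i)

/-- `φ` is a Laplace eigenfunction with eigenvalue `lam`: it is smooth, not identically zero, and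
`Δ φ + lam φ = 0`, the Laplace-Beltrami operator being computed in the charts of the atlas. -/
def IsEigenfunction (b : Module.Basis (Fin 2) ℝ E) (lam : ℝ) (φ : M → ℝ) : Prop :=
  ContMDiff 𝓘(ℝ, E) 𝓘(ℝ, ℝ) ∞ φ ∧ (∃ x, φ x ≠ 0) ∧
    ∀ e ∈ atlas E M, ∀ y ∈ e.target,
      lapChart b e (fun z => φ (e.symm z)) y + lam * φ (e.symm y) = 0

end

end Pool.Agent.Helper904_QSG
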