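import Pool.Agent.Helper904_QS.Stmts
import Pool.Agent.Helper904_QSG.MDefs

/-!
# MP_177f55_an: statements of the pieces on the manifold, modelled on a plane `E` with basis `b`.
-/

set_option autoImplicit false

open MeasureTheory Set Metric Filter Topology Bundle
open scoped ContDiff Manifold

namespace Pool.Agent.Helper904_QSG

open Pool.Agent.Helper904_QS

/-- the identification of `ℂ` with the model plane, `1 ↦ b 0`, `I ↦ b 1` -/
noncomputable def JJ {E : Type} [NormedAddCommGroup E] [NormedSpace ℝ E]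
    (b : Module.Basis (Fin 2) ℝ E) : ℂ ≃L[ℝ] E :=
  (Complex.basisOneI.equiv b (Equiv.refl _)).toContinuousLinearEquiv

/-- LCH: the coordinate Laplacian as an operator on `ℂ` (pure algebra: inverse of a 2x2 matrix). -/
def S_LCH : Prop := ∀ (E : Type) [NormedAddCommGroup E] [NormedSpace ℝ E]
    (b : Module.Basis (Fin 2) ℝ E) (M : Type) [TopologicalSpace M] [ChartedSpace E M]
    [RiemannianBundle (fun x : M => TangentSpace 𝓘(ℝ, E) x)] (e : OpenPartialHomeomorph M E)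
    (f : E → ℝ) (p : ℂ), JJ b p ∈ e.target →
    (∀ y ∈ e.target, gram b e y 0 1 = gram b e y 1 0) →
    (∀ y ∈ e.target, 0 < gram b e y 0 0 * gram b e y 1 1 - gram b e y 0 1 ^ 2) →
    lapChart b e f (JJ b p) = LB (fun z => gram b e (JJ b z) 0 0) (fun z => gram b e (JJ b z) 0 1)
      (fun z => gram b e (JJ b z) 1 1) (fun z => f (JJ b z)) p

/-- MET: the metric coefficients are smooth and positive definite. -/
def S_MET : Prop := ∀ (E : Type) [NormedAddCommGroup E] [NormedSpace ℝ E]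
    (b : Module.Basis (Fin 2) ℝ E) (M : Type) [TopologicalSpace M] [ChartedSpace E M]
    [IsManifold 𝓘(ℝ, E) ∞ M] [RiemannianBundle (fun x : M => TangentSpace 𝓘(ℝ, E) x)]
    [IsContMDiffRiemannianBundle 𝓘(ℝ, E) ∞ E (fun x : M => TangentSpace 𝓘(ℝ, E) x)],
    ∀ e ∈ atlas E M, (∀ i j, ContDiffOn ℝ ∞ (fun y => gram b e y i j) e.target) ∧
      (∀ y ∈ e.target, gram b e y 0 1 = gram b e y 1 0) ∧
      (∀ y ∈ e.target, 0 < gram b e y 0 0) ∧
      (∀ y ∈ e.target, 0 < gram b e y 0 0 * gram b e y 1 1 - gram b e y 0 1 ^ 2)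

/-- Parametrised disc with isothermal coordinates; `e` is a chart of the atlas. -/
structure IsoPar {E : Type} [NormedAddCommGroup E] [NormedSpace ℝ E]
    (b : Module.Basis (Fin 2) ℝ E) (M : Type) [TopologicalSpace M] [ChartedSpace E M]
    [RiemannianBundle (fun x : M => TangentSpace 𝓘(ℝ, E) x)]
    (e : OpenPartialHomeomorph M E) (ψ : ℂ → M) (σ : ℂ → ℝ) : Prop where
  chart : e ∈ atlas E M
  src : ∀ z ∈ ball (0 : ℂ) 2, ψ z ∈ e.source
  cont : ContinuousOn ψ (ball 0 2)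
  sm : ContDiffOn ℝ 5 (fun z => e (ψ z)) (ball 0 2)
  inj : InjOn ψ (ball 0 2)
  imm : ∀ z ∈ ball (0 : ℂ) 2, Function.Injective (fderiv ℝ (fun z => e (ψ z)) z)
  opn : ∀ U : Set ℂ, U ⊆ ball 0 2 → IsOpen U → IsOpen (ψ '' U)
  ssm : ContDiffOn ℝ 4 σ (ball 0 2)
  spos : ∀ z ∈ ball (0 : ℂ) 2, 0 < σ z
  eig : ∀ (lam : ℝ) (φ : M → ℝ), IsEigenfunction b lam φ →
    ∀ z ∈ ball (0 : ℂ) 2, lap (fun y => φ (ψ y)) z = -(lam * σ z ^ 2 * φ (ψ z))

/-- PAR: existence of isothermal discs. -/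
def S_PAR : Prop := ∀ (E : Type) [NormedAddCommGroup E] [NormedSpace ℝ E]
    (b : Module.Basis (Fin 2) ℝ E) (M : Type) [TopologicalSpace M] [ChartedSpace E M]
    [IsManifold 𝓘(ℝ, E) ∞ M] [RiemannianBundle (fun x : M => TangentSpace 𝓘(ℝ, E) x)]
    [IsContMDiffRiemannianBundle 𝓘(ℝ, E) ∞ E (fun x : M => TangentSpace 𝓘(ℝ, E) x)],
    ∀ x : M, ∃ (e : OpenPartialHomeomorph M E) (ψ : ℂ → M) (σ : ℂ → ℝ),
      IsoPar b M e ψ σ ∧ ψ 0 = x

/-- LIP: the charts of a Riemannian surface are locally bi-Lipschitz. -/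
def S_LIP : Prop := ∀ (E : Type) [NormedAddCommGroup E] [NormedSpace ℝ E]
    (_b : Module.Basis (Fin 2) ℝ E) (M : Type) [MetricSpace M] [ChartedSpace E M]
    [IsManifold 𝓘(ℝ, E) ∞ M]
    [RiemannianBundle (fun x : M => TangentSpace 𝓘(ℝ, E) x)]
    [IsContMDiffRiemannianBundle 𝓘(ℝ, E) ∞ E (fun x : M => TangentSpace 𝓘(ℝ, E) x)]
    [IsRiemannianManifold 𝓘(ℝ, E) M],
    ∀ e ∈ atlas E M, ∀ x ∈ e.source, ∃ C : NNReal, ∃ U ∈ 𝓝 x, U ⊆ e.source ∧
      (∀ y ∈ U, ∀ y' ∈ U, edist (e y) (e y') ≤ C * edist y y') ∧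
      (∀ y ∈ U, ∀ y' ∈ U, edist y y' ≤ C * edist (e y) (e y'))

/-- HM1: finite area. -/
def S_HM1 : Prop := ∀ (E : Type) [NormedAddCommGroup E] [NormedSpace ℝ E]
    (_b : Module.Basis (Fin 2) ℝ E) (M : Type) [MetricSpace M] [ChartedSpace E M]
    [IsManifold 𝓘(ℝ, E) ∞ M]
    [RiemannianBundle (fun x : M => TangentSpace 𝓘(ℝ, E) x)]
    [IsContMDiffRiemannianBundle 𝓘(ℝ, E) ∞ E (fun x : M => TangentSpace 𝓘(ℝ, E) x)]
    [IsRiemannianManifold 𝓘(ℝ, E) M] [CompactSpace M] [MeasurableSpace M] [BorelSpace M],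
    μH[2] (univ : Set M) < ⊤

/-- HM2: area in a parametrised disc. -/
def S_HM2 : Prop := ∀ (E : Type) [NormedAddCommGroup E] [NormedSpace ℝ E]
    (b : Module.Basis (Fin 2) ℝ E) (M : Type) [MetricSpace M] [ChartedSpace E M]
    [IsManifold 𝓘(ℝ, E) ∞ M]
    [RiemannianBundle (fun x : M => TangentSpace 𝓘(ℝ, E) x)]
    [IsContMDiffRiemannianBundle 𝓘(ℝ, E) ∞ E (fun x : M => TangentSpace 𝓘(ℝ, E) x)]
    [IsRiemannianManifold 𝓘(ℝ, E) M] [MeasurableSpace M] [BorelSpace M]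
    (e : OpenPartialHomeomorph M E) (ψ : ℂ → M) (σ : ℂ → ℝ), IsoPar b M e ψ σ →
    ∃ c : ℝ, 0 < c ∧ ∀ A : Set ℂ, A ⊆ ball 0 (3 / 2) →
      ENNReal.ofReal c * volume A ≤ μH[2] (ψ '' A)

/-- CMP: comparability of the first and second derivatives of a smooth function in the isothermal
discs. -/
def S_CMP : Prop := ∀ (E : Type) [NormedAddCommGroup E] [NormedSpace ℝ E]
    (b : Module.Basis (Fin 2) ℝ E) (M : Type) [TopologicalSpace M] [T2Space M] [CompactSpace M]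
    [ChartedSpace E M] [IsManifold 𝓘(ℝ, E) ∞ M]
    [RiemannianBundle (fun x : M => TangentSpace 𝓘(ℝ, E) x)] (ι : Type) [Fintype ι]
    (e : ι → OpenPartialHomeomorph M E) (ψ : ι → ℂ → M) (σ : ι → ℂ → ℝ),
    (∀ i, IsoPar b M (e i) (ψ i) (σ i)) →
    ∃ C : ℝ, 1 ≤ C ∧ ∀ (u : M → ℝ) (f : ι → ℂ → ℝ), (∀ i, ContDiff ℝ 4 (f i)) →
    (∀ i, ∀ z ∈ ball (0 : ℂ) (7 / 4), f i z = u (ψ i z)) →
    ∀ i j, ∀ z ∈ closedBall (0 : ℂ) (3 / 2), ∀ z' ∈ closedBall (0 : ℂ) (1 / 2), ψ i z = ψ j z' →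
    gsq (f i) z ≤ C * gsq (f j) z' ∧ hsq (f i) z ≤ C * (hsq (f j) z' + gsq (f j) z')

/-- The final statement. -/
def S_FIN : Prop := ∀ (E : Type) [NormedAddCommGroup E] [NormedSpace ℝ E]
    (b : Module.Basis (Fin 2) ℝ E) (M : Type) [MetricSpace M] [ChartedSpace E M]
    [IsManifold 𝓘(ℝ, E) ∞ M]
    [RiemannianBundle (fun x : M => TangentSpace 𝓘(ℝ, E) x)]
    [IsContMDiffRiemannianBundle 𝓘(ℝ, E) ∞ E (fun x : M => TangentSpace 𝓘(ℝ, E) x)]
    [IsRiemannianManifold 𝓘(ℝ, E) M] [CompactSpace M] [ConnectedSpace M]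
    [MeasurableSpace M] [BorelSpace M],
    ∃ c C : ℝ, 0 < c ∧ 0 < C ∧ ∀ (lam : ℝ) (φ : M → ℝ), 0 < lam → IsEigenfunction b lam φ →
      c < (μH[2] {x : M | 0 < φ x}).toReal / (μH[2] {x : M | φ x < 0}).toReal ∧
      (μH[2] {x : M | 0 < φ x}).toReal / (μH[2] {x : M | φ x < 0}).toReal < C

end Pool.Agent.Helper904_QSG
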